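import Pool.Agent.H89.FLT.S

/-! # FLT, row DTW -/

set_option autoImplicit false

open Matrix

namespace Pool.FLT

theorem dtw : DTWStmt := by
  intro n g η d v hD
  set u : Fin n → ℝ := ((g⁻¹ : GR n) : Matrix (Fin n) (Fin n) ℝ).mulVec fun j => (v j : ℝ) with hu
  have hg : (g : Matrix (Fin n) (Fin n) ℝ) * ((g⁻¹ : GR n) : Matrix (Fin n) (Fin n) ℝ) = 1 := by
    have h : g * g⁻¹ = 1 := mul_inv_cancel g
    have h2 := congrArg (fun x : GR n => (x : Matrix (Fin n) (Fin n) ℝ)) h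
    simpa only [Matrix.SpecialLinearGroup.coe_mul, Matrix.SpecialLinearGroup.coe_one] using h2
  have hv : (g : Matrix (Fin n) (Fin n) ℝ).mulVec u = fun j => (v j : ℝ) := by
    rw [hu, Matrix.mulVec_mulVec, hg, Matrix.one_mulVec]
  have hpow : ∀ j : ℕ, (cst η) ^ j * (g : Matrix (Fin n) (Fin n) ℝ) =
      (g : Matrix (Fin n) (Fin n) ℝ) * (Matrix.diagonal d) ^ j := by
    intro j
    have h : SemiconjBy (g : Matrix (Fin n) (Fin n) ℝ) (Matrix.diagonal d) (cst η) := hD.symm
    exact (h.pow_right j).symm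
  have key : (Wm η v).map (Int.cast : ℤ → ℝ) =
      (g : Matrix (Fin n) (Fin n) ℝ) * (Matrix.diagonal u * Matrix.vandermonde d) := by
    ext i j
    have h1 : ((Wm η v).map (Int.cast : ℤ → ℝ)) i j =
        (((cst η) ^ (j : ℕ)).mulVec fun k => (v k : ℝ)) i := by
      rw [Matrix.map_apply]
      change ((((η ^ (j : ℕ)).mulVec v) i : ℤ) : ℝ) = _
      have h2 := RingHom.map_mulVec (Int.castRingHom ℝ) (η ^ (j : ℕ)) v i
      rw [eq_intCast] at h2
      rw [h2]
      have h3 : (η ^ (j : ℕ)).map (Int.castRingHom ℝ) = (cst η) ^ (j : ℕ) :=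
        map_pow (Int.castRingHom ℝ).mapMatrix η (j : ℕ)
      rw [h3]
      rfl
    rw [h1, ← hv, Matrix.mulVec_mulVec, hpow, Matrix.diagonal_pow, Matrix.mul_apply]
    unfold Matrix.mulVec dotProduct
    refine Finset.sum_congr rfl fun k _ => ?_
    have e1 := Matrix.mul_diagonal (d ^ (j : ℕ)) (g : Matrix (Fin n) (Fin n) ℝ) i k
    have e2 := Matrix.diagonal_mul u (Matrix.vandermonde d) k j
    change ((g : Matrix (Fin n) (Fin n) ℝ) * Matrix.diagonal (d ^ (j : ℕ))) i k * u k = _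
    rw [e1, e2, Matrix.vandermonde_apply, Pi.pow_apply]
    ring
  have hdet : (((Wm η v).det : ℤ) : ℝ) = ((Wm η v).map (Int.cast : ℤ → ℝ)).det := by
    have := RingHom.map_det (Int.castRingHom ℝ) (Wm η v)
    rw [eq_intCast] at this
    exact this
  rw [hdet, key, Matrix.det_mul, Matrix.det_mul, Matrix.det_diagonal, g.2, one_mul]

end Pool.FLT
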